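import Pool.Agent.W745.Fib.Stm

set_option autoImplicit false

open Filter Set
open scoped Topology

namespace Pool.Agent.W74.FM.B

open Pool.Agent.W811.Stu Pool.Agent.W745.Fib

/-- a continuous nonvanishing function on `(0, ∞)` has constant sign -/
theorem sign_Ioi {f : ℝ → ℝ} (hf : ContinuousOn f (Ioi 0)) (h0 : ∀ x, 0 < x → f x ≠ 0)
    {x y : ℝ} (hx : 0 < x) (hy : 0 < y) (h : 0 < f x) : 0 < f y := by
  by_contra hcon
  push Not at hcon
  obtain ⟨t, ht, ht2⟩ := (isPreconnected_Ioi (a := (0 : ℝ))).intermediate_value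
    (mem_Ioi.2 hy) (mem_Ioi.2 hx) hf ⟨hcon, h.le⟩
  exact h0 t ht ht2

theorem le_cc (x : ℝ) : x ≤ cc x := by
  have h1 := cc_sq x
  have h2 := cc_pos x
  by_contra h
  push Not at h
  nlinarith

/-- main step: a function with `|h| ≥ l / 2`, nonvanishing derivative -/
theorem grow {h h' : ℝ → ℝ} (hd : ∀ l, 0 < l → HasDerivAt h (h' l) l)
    (hc : ContinuousOn h' (Ioi 0)) (hn : ∀ l, 0 < l → h' l ≠ 0)
    (hb : ∀ l, 0 < l → l / 2 ≤ |h l|) {l0 : ℝ} (hl : 0 < l0) (hpos : 0 < h l0) : 0 < h' l0 := by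
  have hcont : ContinuousOn h (Ioi 0) := fun l hl => (hd l hl).continuousAt.continuousWithinAt
  have hh0 : ∀ l, 0 < l → h l ≠ 0 := by
    intro l hl h1
    have := hb l hl
    rw [h1, abs_zero] at this
    linarith
  have hhpos : ∀ l, 0 < l → 0 < h l := fun l hl' => sign_Ioi hcont hh0 hl hl' hpos
  by_contra hneg
  push Not at hneg
  have hneg' : 0 < -h' l0 := by
    have := lt_of_le_of_ne hneg (hn l0 hl)
    linarith
  have hall : ∀ l, 0 < l → 0 < -h' l := fun l hl' =>
    sign_Ioi (f := fun l => -h' l) hc.neg (fun x hx => neg_ne_zero.2 (hn x hx)) hl hl' hneg'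
  set L := 2 * h l0 + l0 + 1 with hL
  have hLl : l0 < L := by linarith
  have hanti : AntitoneOn h (Icc l0 L) := by
    apply antitoneOn_of_deriv_nonpos (convex_Icc l0 L)
    · intro x hx
      exact (hd x (by linarith [hx.1])).continuousAt.continuousWithinAt
    · intro x hx
      exact (hd x (by linarith [(interior_subset hx).1])).differentiableAt.differentiableWithinAt
    · intro x hx
      rw [(hd x (by linarith [(interior_subset hx).1])).deriv]
      have := hall x (by linarith [(interior_subset hx).1])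
      linarith
  have h1 := hanti ⟨le_rfl, hLl.le⟩ ⟨hLl.le, le_rfl⟩ hLl.le
  have h2 := hb L (by linarith)
  rw [abs_of_pos (hhpos L (by linarith))] at h2
  linarith

theorem b (hA : SA) (hZ : SZ) (hR : SRo) : SB := by
  intro lam hlam n hn E0 hE0
  obtain ⟨e, he1, he2⟩ := hR (fun p => dE p.1 n p.2) (fun l E => dEE l n E)
    (fun l E => dLE l n E) ((contDiff_dE n).of_le le_top) (fun l E => hasDeriv_dE l n E)
    (fun l E => hasDeriv_dE_lam l n E) (Nat.fib n - 1) (fun l hl => by
      obtain ⟨-, -, z3, z4, z5⟩ := hZ l hl.ne' n hn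
      refine ⟨z3, z4, fun E hE h => ?_⟩
      have := z5 E hE
      rw [h, mul_zero] at this
      exact lt_irrefl _ this)
  obtain ⟨i, hi⟩ : E0 ∈ Set.range (fun i => e i lam) := by
    rw [← (he1 lam hlam).2]
    exact hE0
  simp only at hi
  have hcrit : ∀ l, 0 < l → dE l n (e i l) = 0 := by
    intro l hl
    have : e i l ∈ {E : ℝ | dE l n E = 0} := by
      rw [(he1 l hl).2]
      exact ⟨i, rfl⟩
    exact this
  have hder : ∀ l, 0 < l → HasDerivAt (fun l => tr l n (e i l)) (dL l n (e i l)) l := by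
    intro l hl
    have hG : HasFDerivAt (fun p : ℝ × ℝ => tr p.1 n p.2)
        (fderiv ℝ (fun p : ℝ × ℝ => tr p.1 n p.2) (l, e i l)) (l, e i l) :=
      ((contDiff_tr n).differentiable (by simp) _).hasFDerivAt
    set G' := fderiv ℝ (fun p : ℝ × ℝ => tr p.1 n p.2) (l, e i l) with hG'
    have e1 : G' (1, 0) = dL l n (e i l) := by
      have h1 : HasDerivAt (fun m : ℝ => (m, e i l)) ((1 : ℝ), (0 : ℝ)) l :=
        (hasDerivAt_id l).prodMk (hasDerivAt_const l (e i l))
      have h2 : HasDerivAt (fun m : ℝ => tr m n (e i l)) (G' (1, 0)) l :=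
        HasFDerivAt.comp_hasDerivAt (f := fun m : ℝ => (m, e i l)) l hG h1
      exact h2.unique (hasDeriv_tr_lam l n (e i l))
    have e2 : G' (0, 1) = dE l n (e i l) := by
      have h1 : HasDerivAt (fun m : ℝ => (l, m)) ((0 : ℝ), (1 : ℝ)) (e i l) :=
        (hasDerivAt_const (e i l) l).prodMk (hasDerivAt_id (e i l))
      have h2 : HasDerivAt (fun m : ℝ => tr l n m) (G' (0, 1)) (e i l) :=
        HasFDerivAt.comp_hasDerivAt (f := fun m : ℝ => (l, m)) (e i l) hG h1
      exact h2.unique (hasDeriv_tr l n (e i l))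
    have h1 : HasDerivAt (fun m : ℝ => (m, e i m))
        ((1 : ℝ), (-(dLE l n (e i l)) / dEE l n (e i l))) l :=
      (hasDerivAt_id l).prodMk (he2 i l hl)
    have h2 : HasDerivAt (fun m : ℝ => tr m n (e i m))
        (G' (1, (-(dLE l n (e i l)) / dEE l n (e i l)))) l :=
      HasFDerivAt.comp_hasDerivAt (f := fun m : ℝ => (m, e i m)) l hG h1
    have e3 : G' (1, (-(dLE l n (e i l)) / dEE l n (e i l))) = dL l n (e i l) := by
      have : ((1 : ℝ), (-(dLE l n (e i l)) / dEE l n (e i l)))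
          = ((1 : ℝ), (0 : ℝ)) + (-(dLE l n (e i l)) / dEE l n (e i l)) • ((0 : ℝ), (1 : ℝ)) := by
        simp
      rw [this, map_add, map_smul, e1, e2, hcrit l hl]
      simp
    rw [e3] at h2
    exact h2
  have hcontE : ContinuousOn (e i) (Ioi 0) := fun l hl =>
    (he2 i l hl).continuousAt.continuousWithinAt
  have hcont : ContinuousOn (fun l => dL l n (e i l)) (Ioi 0) :=
    (contDiff_dL n).continuous.comp_continuousOn (continuousOn_id.prodMk hcontE)
  have hne : ∀ l, 0 < l → dL l n (e i l) ≠ 0 := fun l hl =>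
    hA l hl.ne' n hn _ (hcrit l hl)
  have hb : ∀ l, 0 < l → l / 2 ≤ |tr l n (e i l)| := by
    intro l hl
    obtain ⟨z1, -⟩ := hZ l hl.ne' n hn
    by_contra hcon
    push Not at hcon
    exact z1 _ (hcon.trans_le (le_cc _)) (hcrit l hl)
  rw [← hi]
  rcases lt_trichotomy (tr lam n (e i lam)) 0 with h | h | h
  · have h1 := grow (h := fun l => -tr l n (e i l)) (h' := fun l => -dL l n (e i l))
      (fun l hl => (hder l hl).neg) hcont.neg (fun l hl => neg_ne_zero.2 (hne l hl))
      (fun l hl => by rw [abs_neg]; exact hb l hl) hlam (by linarith)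
    nlinarith
  · exfalso
    have := hb lam hlam
    rw [h, abs_zero] at this
    linarith
  · have h1 := grow hder hcont hne hb hlam h
    exact mul_pos h h1

end Pool.Agent.W74.FM.B
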