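import Pool.Agent.W745.Fib.Stm
import Pool.Agent.W965.Stu.Dist
import Pool.Agent.W965.Stu.PD
import Pool.Agent.W965.Stu.Poly

set_option autoImplicit false

open Polynomial Filter Set
open scoped Topology

namespace Pool.Agent.W74.FM.Z

open Pool.Agent.W811.Stu Pool.Agent.W745.Fib Pool.Agent.W174.Stu

/-- strict Laguerre inequality for products of linear factors -/
theorem laguerre_strict {g : ℝ[X]} (hg : g.Splits) (hd : 1 ≤ g.natDegree) {x : ℝ}
    (hx : g.eval x ≠ 0) :
    0 < (g.derivative.eval x) ^ 2 - g.eval x * g.derivative.derivative.eval x := by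
  have hcard := hg.natDegree_eq_card_roots
  have hne : g.roots ≠ 0 := by
    intro h
    rw [h] at hcard
    simp at hcard
    omega
  obtain ⟨r, hr⟩ := Multiset.exists_mem_of_ne_zero hne
  obtain ⟨s, hs⟩ := Multiset.exists_cons_of_mem hr
  have e0 := hg.eq_prod_roots
  rw [hs, Multiset.map_cons, Multiset.prod_cons] at e0
  set h := C g.leadingCoeff * (s.map (fun r => X - C r)).prod with hh
  have e : g = (X - C r) * h := by
    rw [e0, hh]; ring
  have hL := laguerre_prod g.leadingCoeff s x
  rw [← hh] at hL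
  have hhx : h.eval x ≠ 0 := by
    intro h0
    apply hx
    rw [e, eval_mul, h0, mul_zero]
  rw [e]
  simp only [derivative_mul, derivative_sub, derivative_X, derivative_C, sub_zero, one_mul,
    derivative_add, eval_add, eval_mul, eval_sub, eval_X, eval_C]
  have h1 : 0 < (h.eval x) ^ 2 := by positivity
  nlinarith [mul_nonneg (sq_nonneg (x - r)) hL]

/-- zeros of a split polynomial with simple zeros -/
theorem card_level {G : ℝ[X]} (hG : G ≠ 0) (hs : G.Splits)
    (hsimp : ∀ x, G.eval x = 0 → G.derivative.eval x ≠ 0) :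
    {E : ℝ | G.eval E = 0}.Finite ∧ {E : ℝ | G.eval E = 0}.ncard = G.natDegree := by
  have hset : {E : ℝ | G.eval E = 0} = (G.roots.toFinset : Set ℝ) := by
    ext x
    simp [hG, IsRoot.def]
  have hnodup : G.roots.Nodup := by
    rw [Multiset.nodup_iff_count_le_one]
    intro r
    rw [count_roots]
    by_contra hh
    have h2 : 1 < G.rootMultiplicity r := by omega
    have := (one_lt_rootMultiplicity_iff_isRoot hG).1 h2
    exact hsimp r this.1.eq_zero this.2
  rw [hset]
  refine ⟨Finset.finite_toSet _, ?_⟩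
  rw [Set.ncard_coe_finset, Multiset.toFinset_card_of_nodup hnodup, hs.natDegree_eq_card_roots]

theorem general {F : ℝ[X]} {c : ℝ} (h0 : 0 < c) (hF : 1 ≤ F.natDegree)
    (hr : ∀ w : ℂ, aeval w F = 0 → w.im = 0)
    (hc : ∀ E : ℝ, |F.eval E| < c → F.derivative.eval E ≠ 0) :
    (∀ t : ℝ, |t| < c → {E : ℝ | F.eval E = t}.Finite ∧
      {E : ℝ | F.eval E = t}.ncard = F.natDegree) ∧
    {E : ℝ | F.derivative.eval E = 0}.Finite ∧
    {E : ℝ | F.derivative.eval E = 0}.ncard = F.natDegree - 1 ∧
    (∀ E : ℝ, F.derivative.eval E = 0 → F.eval E * F.derivative.derivative.eval E < 0) := by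
  have hsp : F.Splits := by
    have := splits_sub h0 hF hr hc (t := 0) (by simpa using h0)
    simpa using this
  have hder : ∀ E : ℝ, F.derivative.eval E = 0 →
      F.eval E * F.derivative.derivative.eval E < 0 := by
    intro E hE
    have h1 : F.eval E ≠ 0 := by
      intro h2
      exact hc E (by rw [h2]; simpa using h0) hE
    have h2 := laguerre_strict hsp hF h1
    rw [hE] at h2
    linarith
  have hdd : F.derivative.natDegree = F.natDegree - 1 := natDegree_derivative F
  have hdne : F.derivative ≠ 0 := by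
    intro h
    have := derivative_eq_zero.1 h
    omega
  have hdsp : F.derivative.Splits := by
    rw [splits_iff_card_roots]
    have h1 := card_roots_le_derivative F
    have h2 := hsp.natDegree_eq_card_roots
    have h3 := card_roots' F.derivative
    omega
  obtain ⟨k1, k2⟩ := card_level hdne hdsp (fun x hx => by
    intro h
    have := hder x hx
    rw [h, mul_zero] at this
    exact lt_irrefl _ this)
  refine ⟨fun t ht => ?_, k1, by rw [k2, hdd], hder⟩
  have hFt : F - C t ≠ 0 := by
    intro h
    have : F = C t := sub_eq_zero.1 h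
    rw [this] at hF
    simp at hF
  have hset : {E : ℝ | F.eval E = t} = {E : ℝ | (F - C t).eval E = 0} := by
    ext x
    simp [sub_eq_zero]
  obtain ⟨m1, m2⟩ := card_level hFt (splits_sub h0 hF hr hc ht) (fun x hx => by
    rw [derivative_sub, derivative_C, sub_zero]
    refine hc x ?_
    rw [eval_sub, eval_C, sub_eq_zero] at hx
    rw [hx]; exact ht)
  rw [hset]
  exact ⟨m1, by rw [m2, natDegree_sub_C]⟩

theorem z : SZ := by
  intro lam hlam n hn
  obtain ⟨m, rfl⟩ : ∃ m, n = m + 1 := ⟨n - 1, by omega⟩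
  have h1 : ∀ k, 1 ≤ one k := fun _ => le_rfl
  obtain ⟨F, hF1, hF, hF2⟩ := Pool.Agent.W965.Stu.tPoly lam one m h1
  have hFP : F = P lam (m + 1) := by
    apply Polynomial.funext
    intro E
    rw [hF, orb_y]
    rfl
  rw [hFP] at hF1 hF2
  have hne : ∀ E : ℝ, |tr lam (m + 1) E| < cc (lam / 2) → dE lam (m + 1) E ≠ 0 := by
    intro E hE
    have h2 := Pool.Agent.W965.Stu.Dist.Vy_ne hlam h1 m E (by rw [orb_y]; exact hE)
    rw [Vy_eq hlam] at h2
    intro h3
    rw [h3, mul_zero] at h2
    exact h2 rfl
  obtain ⟨g1, g2, g3, g4⟩ := general (cc_pos (lam / 2)) hF1 hF2 hne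
  refine ⟨hne, fun c hc => ?_, g2, ?_, g4⟩
  · have := g1 c hc
    rw [natDegree_P] at this
    exact this
  · rw [natDegree_P] at g3
    exact g3

end Pool.Agent.W74.FM.Z
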